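import Pool.Agent.R625.AT.Jump2

set_option autoImplicit false

/-!
# The Atiyah conjecture and the jumps of the kernel dimension in one coefficient

If one coefficient `t` of a matrix over the complex group ring varies, then the kernel dimension is
constant up to countably many values of `t`, where it is larger. For every group, the sum of all
these jumps is at most `1`; and the Atiyah conjecture is equivalent to the integrality of the jumps,
that is, each such pencil has at most one exceptional value `t`, and there the dimension jumps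
by `1`.

Outline. For different numbers `t₁, …, t_q` and `s₁, …, s_q` and matrices `B`, `E` we have
`∑ dim ker (B + t_k E) ≤ rank E + ∑ dim ker (B + s_l E)`: on the space of the tuples `(x_k)` with
`x_k` in the kernel of `B + t_k E` and `E (∑ x_k) = 0` the map `x ↦ (∑_k x_k / (s_l - t_k))_l` goes
to the product of the kernels of the `B + s_l E`, and it is injective, as the Cauchy matrix is
invertible. If the coefficients of a matrix in a largest matching are replaced one by one by large
generic numbers, we arrive at a matrix whose kernel dimension is `m` minus the term rank.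
-/

noncomputable section

namespace Pool.Agent.Results.MP_c5ea68_al.CoefficientJumps

/-- The kernel of right multiplication by the matrix `A` on `ℓ²(G)^m`. -/
def kernel {G : Type} [Group G] {m n : ℕ} (A : Matrix (Fin m) (Fin n) (MonoidAlgebra ℂ G)) :
    Set (lp (fun _ : Fin m × G => ℂ) 2) :=
  {x | ∀ (j : Fin n) (g : G),
    ∑ i : Fin m, (A i j).coeff.sum (fun h c => x (i, g * h⁻¹) * c) = 0}

open Classical in
/-- The von Neumann dimension of this kernel: the sum over `i` of one minus the squared distance
from the basis vector at `(i, 1)` to the kernel, that is, the trace of the projection onto the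
kernel. -/
def kerDim {G : Type} [Group G] {m n : ℕ} (A : Matrix (Fin m) (Fin n) (MonoidAlgebra ℂ G)) : ℝ :=
  ∑ i : Fin m, (1 - (Metric.infDist
    (lp.single 2 (i, (1 : G)) (1 : ℂ) : lp (fun _ : Fin m × G => ℂ) 2) (kernel A)) ^ 2)

/-- The smallest kernel dimension of the matrices `B + t E`, `t` in `ℂ`. -/
def low {G : Type} [Group G] {m n : ℕ} (B E : Matrix (Fin m) (Fin n) (MonoidAlgebra ℂ G)) : ℝ :=
  sInf (Set.range fun t : ℂ => kerDim (B + t • E))

/-- The jump of the kernel dimension of the pencil `B + t E` at `t`. -/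
def jump {G : Type} [Group G] {m n : ℕ} (B E : Matrix (Fin m) (Fin n) (MonoidAlgebra ℂ G))
    (t : ℂ) : ℝ :=
  kerDim (B + t • E) - low B E

/-- The matrix whose only term is `g` in the entry `(i, j)`. -/
def term {G : Type} [Group G] {m n : ℕ} (i : Fin m) (j : Fin n) (g : G) :
    Matrix (Fin m) (Fin n) (MonoidAlgebra ℂ G) :=
  Matrix.single i j (MonoidAlgebra.single g 1)

open Pool.Agent.R625.AT TH57.Thr.Ati Pool.Agent.W649.ZL

theorem kerDim_kap {G : Type} [Group G] {m n : ℕ}
    (A : Matrix (Fin m) (Fin n) (MonoidAlgebra ℂ G)) : kerDim A = kap A :=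
  (kerC_dim A).symm ▸ rfl

/-- **The Atiyah conjecture and the jumps of pencils.** Let `G` be a group.

1. Let `B` and `E` be `m × n` matrices over the complex group ring. The jumps `dim ker (B + t E)`
   minus the smallest value are nonnegative, they vanish for all but countably many `t`, and the
   sum of the jumps at finitely many different `t` is at most the von Neumann rank
   `m - dim ker E` of `E`, hence at most `1` if `E` has only one term. If all the numbers
   `l · dim ker (B + t E)` are integers, then there are at most `l · (m - dim ker E)` values of `t`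
   with a jump.
2. For every `l ≥ 1`, all numbers `l · dim ker A`, for `A` a matrix over the complex group ring,
   are integers if and only if all numbers `l · jump` are integers for all pencils in one
   coefficient. -/
theorem result (G : Type) [Group G] :
    (∀ (m n : ℕ) (B E : Matrix (Fin m) (Fin n) (MonoidAlgebra ℂ G)),
      (∀ t : ℂ, 0 ≤ jump B E t) ∧ {t : ℂ | jump B E t ≠ 0}.Countable ∧
      (∀ F : Finset ℂ, ∑ t ∈ F, jump B E t ≤ m - kerDim E) ∧
      (∀ (i : Fin m) (j : Fin n) (g : G), E = term i j g → (m : ℝ) - kerDim E ≤ 1) ∧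
      ∀ l : ℕ, 0 < l → (∀ t : ℂ, ∃ z : ℤ, (l : ℝ) * kerDim (B + t • E) = z) →
        {t : ℂ | jump B E t ≠ 0}.Finite ∧
        ({t : ℂ | jump B E t ≠ 0}.ncard : ℝ) ≤ l * (m - kerDim E)) ∧
    ∀ l : ℕ, 0 < l →
      ((∀ (m n : ℕ) (A : Matrix (Fin m) (Fin n) (MonoidAlgebra ℂ G)),
        ∃ z : ℤ, (l : ℝ) * kerDim A = z) ↔
      ∀ (m n : ℕ) (B : Matrix (Fin m) (Fin n) (MonoidAlgebra ℂ G)) (i : Fin m) (j : Fin n) (g : G)
        (t : ℂ), ∃ z : ℤ, (l : ℝ) * jump B (term i j g) t = z) := by
  have hjump : ∀ (m n : ℕ) (B E : Matrix (Fin m) (Fin n) (MonoidAlgebra ℂ G)),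
      ∃ d0 : ℝ, low B E = d0 ∧ (∃ s : ℂ, kerDim (B + s • E) = d0) ∧
        (∀ t : ℂ, d0 ≤ kerDim (B + t • E)) ∧
        {t : ℂ | kerDim (B + t • E) ≠ d0}.Countable ∧
        ∀ F : Finset ℂ, ∑ t ∈ F, (kerDim (B + t • E) - d0) ≤ m - kerDim E := by
    intro m n B E
    obtain ⟨d0, h1, h2, h3, h4⟩ := jumps (Rop B) (Rop E) (Rop_eqv B) (Rop_eqv E)
    have hf : ∀ t : ℂ, pd (Rop B) (Rop E) t = kerDim (B + t • E) := by
      intro t
      rw [kerDim_kap, kap_pencil]
    simp only [hf] at h2 h3 h4
    have h5 : vd (LinearMap.range (Rop E : EE G (Fin m) →ₗ[ℂ] EE G (Fin n))) = m - kerDim E := by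
      have h6 := ker_add_range (Rop E) (Rop_eqv E)
      rw [Fintype.card_fin] at h6
      have h7 : kerDim E = vd (LinearMap.ker (Rop E : EE G (Fin m) →ₗ[ℂ] EE G (Fin n))) :=
        kerDim_kap E
      rw [h7]
      linarith
    rw [h5] at h4
    obtain ⟨s, hs⟩ : ∃ s : ℂ, kerDim (B + s • E) = d0 := by
      by_contra hcon
      push Not at hcon
      have h6 : {t : ℂ | kerDim (B + t • E) ≠ d0} = Set.univ := Set.eq_univ_of_forall hcon
      rw [h6] at h3
      exact not_countable_complex h3
    refine ⟨d0, le_antisymm ?_ ?_, ⟨s, hs⟩, h2, h3, h4⟩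
    · rw [← hs]
      exact csInf_le ⟨d0, by rintro _ ⟨t, rfl⟩; exact h2 t⟩ ⟨s, rfl⟩
    · exact le_csInf (Set.range_nonempty _) (by rintro _ ⟨t, rfl⟩; exact h2 t)
  have hset : ∀ (m n : ℕ) (B E : Matrix (Fin m) (Fin n) (MonoidAlgebra ℂ G)),
      {t : ℂ | jump B E t ≠ 0} = {t : ℂ | kerDim (B + t • E) ≠ low B E} := by
    intro m n B E
    ext t
    exact not_congr sub_eq_zero
  refine ⟨?_, ?_⟩
  · intro m n B E
    obtain ⟨d0, h0, hs, h1, h2, h3⟩ := hjump m n B E
    refine ⟨fun t => ?_, ?_, ?_, ?_, ?_⟩
    · unfold jump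
      rw [h0]
      linarith [h1 t]
    · rw [hset, h0]
      exact h2
    · intro F
      unfold jump
      rw [h0]
      exact h3 F
    · intro i j g hE
      have h6 := ker_add_range (Rop E) (Rop_eqv E)
      rw [Fintype.card_fin] at h6
      have h7 : kerDim E = vd (LinearMap.ker (Rop E : EE G (Fin m) →ₗ[ℂ] EE G (Fin n))) :=
        kerDim_kap E
      have h8 : vd (LinearMap.range (Rop E : EE G (Fin m) →ₗ[ℂ] EE G (Fin n))) ≤ 1 := by
        rw [hE]
        exact rank_trm i j g
      rw [h7]
      linarith
    · intro l hl hint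
      rw [hset, h0]
      exact jumps_int _ d0 _ h1 h2 h3 l hl hint
  · intro l hl
    constructor
    · intro h m n B i j g t
      obtain ⟨d0, h0, ⟨s, hs⟩, _⟩ := hjump m n B (term i j g)
      obtain ⟨z1, hz1⟩ := h m n (B + t • term i j g)
      obtain ⟨z2, hz2⟩ := h m n (B + s • term i j g)
      refine ⟨z1 - z2, ?_⟩
      unfold jump
      rw [h0, ← hs, mul_sub, hz1, hz2]
      push_cast
      ring
    · intro h m n A
      obtain ⟨N, σ, c, rfl⟩ := exists_plus A
      rw [kerDim_kap]
      apply int_of_jumps l
      intro B k j g t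
      obtain ⟨z, hz⟩ := h m n B k j g t
      refine ⟨z, ?_⟩
      rw [← hz]
      unfold jump low
      simp only [kerDim_kap]
      rfl

end Pool.Agent.Results.MP_c5ea68_al.CoefficientJumps
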